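import Pool.Agent.Helper83.SU.St

set_option autoImplicit false

/-! Module LS of project SU (MP_f663dd_lc): successors, for limit `k`. -/

namespace Pool.Agent.Helper40.SU
open Pool.Agent.Helper83.SU Pool.Agent.Helper83.CK Cardinal Set
universe u

theorem mLS : StNR.{u} → StRN.{u} → StMG.{u} → StLS.{u} := by
  intro hNR hRN hMG k τ hk hkτ hlim hneg
  by_cases hc : k ≤ 𝔠
  · rw [negRel_iff]
    exact tS _ _ (by rw [mk_ord_toType]; exact hk) (by rw [mk_ord_toType]; exact hc)
  have hlt : ℵ₀ < k := lt_of_le_of_lt aleph0_le_continuum (not_le.1 hc)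
  obtain ⟨L, hL⟩ := exists_subset_card (Order.succ τ) τ (Order.le_succ τ)
  obtain ⟨K, hKL, hK⟩ := Cardinal.le_mk_iff_exists_subset.1 (hkτ.trans hL.ge)
  obtain ⟨g, hg⟩ := hNR _ k K L hk hKL hK (by rw [hL]; exact hneg)
  have hα : #((Order.succ τ).ord.ToType) = Order.succ τ := mk_ord_toType _
  obtain ⟨h, hh⟩ := tP (Order.succ τ).ord.ToType L Set.univ (Set.subset_univ L)
    (by rw [hL]; exact hk.trans hkτ) (by rw [mk_univ, hα, hL])
  obtain ⟨g', hg'⟩ := hMG _ (fun n => if n = 0 then g else fun _ => h)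
  have hS : Sm k K (Set.univ : Set (Order.succ τ).ord.ToType) := by
    refine ⟨g', fun A hA hAK => ?_⟩
    have hcl := (hg' A).1 hA
    have h0 : Cl g A := by simpa using hcl 0
    have h1 : Cl (fun _ => h) A := by simpa using hcl 1
    have h2 := hh A (fun x hx => h1 (fun _ => false) x hx)
    have h3 := hg A h0 hAK
    exact lt_of_le_of_lt h2 (hlim _ (max_lt hlt h3))
  have := hRN _ k K hk hK hS
  rwa [hα] at this

end Pool.Agent.Helper40.SU
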